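import Mathlib
import Pool.Agent.W2helper2.RG.All

/-!
# Semistable classes for products of elliptic curves over fields of `3`-power degree, `ℓ = 3`

`K` is the field of third roots of unity. A Galois extension `F / K` of degree `3 ^ N` is allowed if
it is ramified only at primes that do not divide `3` and in whose residue fields (of `K`) `-1` is not
a square; the Galois group may be any `3`-group, in particular nonabelian. Let `k` be a number field
contained in an allowed field `F`. We consider the elliptic curves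

  `E_{a,b} : y² = x³ - (a x + b)²`, `a, b ∈ 𝓞_k`,

such that `b (4 a³ + 27 b) ≠ 0` is divisible only by primes of `k` above `2`, `3` and the prime numbers
`p = 7` modulo `12` (the discriminant is `-16 b³ (4 a³ + 27 b)`). These are the curves with a subgroup
of order three whose points are defined over `k(√-1)` and conjugate to their negatives. In general they
have no complex multiplication: for `(a, b) = (1, 1)` and `(1, 4)`, which are in the class for all `k`,
the `j`-invariants are not integral.

For `n` curves `E_1, ..., E_n` of the class and an integer `i`, `V = V_3(E_1) ⊗ ... ⊗ V_3(E_n) (-i)` is a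
direct summand of `H^n(X, ℚ_3(j))`, `X = E_1 × ... × E_n`, `j = n - i`.

Theorem: if `n` is odd, then for all `i ≥ 0` every class of `H¹(k, V)` which is trivial on the
decomposition groups of the places above `3` and on the inertia groups of the places above the primes
`p ≥ 5`, `p ≠ 7` modulo `12`, is zero. (There is no condition at the places above `2` and the primes
`7` modulo `12`.) The same holds for all the number fields `k` contained in the infinite extension
`Omega` of `ℚ` generated by `√-3`, the cube roots of the cube-free `D = ± 1` modulo `9` composed of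
primes `7` modulo `12`, and the numbers of degree `3 ^ N` in the cyclotomic fields of the `m` composed
of primes `7` modulo `12`.

Relation with the problem (not part of the Lean theorem). Let `i > n`, that is `j < 0`. All the weights
of the crystalline Frobenius on the potentially semistable module of `V` at a place `v` above `3` are
positive and `Fil⁰ = D_dR(V)`, so the classes of `H¹(k_v, V)` that are zero in `H¹(k_v, V ⊗ B_st)` are
zero. At the places `v` prime to `3` of good reduction `H¹(k_v, V) = 0`, because the weight of `V` is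
`2 i - n > 0`. So the group of the theorem contains `H¹_st(k, V)`, and by the Künneth formula
`H¹_st(k, H^m(X, ℚ_3(j))) = 0` for the product `X` of any number of curves of the class, for all odd
`m` and all `j < 0` (also for `j = 0` if the curves have potentially good reduction above `3`). The
group `H_M^{m+1}(X, ℚ(j))` is a `K`-group of negative degree, so it is zero too, and Q1 is true for
these `k`, `X`, `ℓ = 3`, `i = m + 1` and `j`. By the duality of Poitou and Tate the theorem says that
`H²(G_S, H^m(X, ℚ_3(r))) = 0` for all odd `m` and all `r ≥ m + 2`, as predicted by Jannsen.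

The proof: let `χ` be the quadratic character of `F(√-1) / F`. The representation of `Gal(F)` on
`V mod 3` is a successive extension of copies of `𝔽_3(χ)`. A class of `H¹(F, 𝔽_3(χ))` gives
`z ∈ L = F(√-1)` such that `z σ(z)` is a cube for the generator `σ` of `Gal(L/F)`. If the class comes from
`V`, then `z` is a cube in the completions above `3`, its valuations are divisible by three at the primes
where nothing is ramified, and also at the primes above `2` and the `p = 7` modulo `12`, because they
are stable under `σ`. The `3`-group `Gal(L/K(√-1))` acts on the group of these `z` modulo cubes, and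
there is no fixed vector, because it would come from `K(√-1) = ℚ(ζ_12)`. So the residual classes
vanish, and a class of `H¹(F, V)` is infinitely divisible by `3`. The restriction from `k` to `F` is
injective.

Built on project TQ of helper24 and on the pieces of project RG by helper3 (torsion points, good
reduction), helper9 (approximation, unramified places), helper16 (`3`-adic classes, tensor products),
helper24 (stable primes), helper71 (Tate modules, averaging), helper89 (cyclotomic character, places).
-/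

set_option autoImplicit false

namespace Pool.Agent.Results.MP_76188c_nt.ProductsThreePowerFields

open NumberField IsDedekindDomain WeierstrassCurve
open scoped Classical

/-! ### The fields -/

/-- `F / K` is Galois, its degree is a power of `3`, and it is ramified only at primes that do not
divide `3` and in whose residue fields (of `K`) `-1` is not a square. -/
def Allowed (K F : Type) [Field K] [NumberField K] [Field F] [NumberField F] [Algebra K F] :
    Prop :=
  IsGalois K F ∧ (∃ n : ℕ, Module.finrank K F = 3 ^ n) ∧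
    ∀ w : HeightOneSpectrum (𝓞 F), ¬ Algebra.IsUnramifiedAt (𝓞 K) w.asIdeal →
      (3 : 𝓞 F) ∉ w.asIdeal ∧ ∀ x : 𝓞 K, algebraMap (𝓞 K) (𝓞 F) (x ^ 2 + 1) ∉ w.asIdeal

/-- `m > 0` is composed of primes `7` modulo `12`. -/
def Conductor (m : ℕ) : Prop := 0 < m ∧ ∀ q : ℕ, q.Prime → q ∣ m → q % 12 = 7

/-- `D > 0` is cube-free, composed of primes `7` modulo `12`, and `± 1` modulo `9`. -/
def Radicand (D : ℕ) : Prop :=
  0 < D ∧ (∀ p : ℕ, p.Prime → p ∣ D → p % 12 = 7 ∧ ¬ p ^ 3 ∣ D) ∧ (D % 9 = 1 ∨ D % 9 = 8)

/-- The infinite extension of `ℚ` generated by the square roots of `-3`, the cube roots of the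
radicands, and the numbers of degree `3 ^ n` in the cyclotomic fields of the `m` composed of primes `7`
modulo `12`. -/
noncomputable def Omega : IntermediateField ℚ ℂ := IntermediateField.adjoin ℚ
  ({z : ℂ | z ^ 2 = -3} ∪ ({z : ℂ | ∃ D : ℕ, Radicand D ∧ z ^ 3 = D} ∪
    {z : ℂ | (∃ n : ℕ, (minpoly ℚ z).natDegree = 3 ^ n) ∧
      ∃ m : ℕ, Conductor m ∧ z ∈ IntermediateField.adjoin ℚ {ζ : ℂ | ζ ^ m = 1}}))

/-! ### The curves -/

/-- The curve `E_{a,b} : y² = x³ - (a x + b)²`. -/
def curve {R : Type} [CommRing R] (a b : R) : WeierstrassCurve R := ⟨0, -a ^ 2, 0, -2 * a * b, -b ^ 2⟩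

/-- The prime number `p` does not divide `6` and is not `7` modulo `12`. -/
def Good (p : ℕ) : Prop := p ≠ 2 ∧ p ≠ 3 ∧ p % 12 ≠ 7

section field

variable {k : Type} [Field k]

/-- `b (4 a³ + 27 b)` is not zero, and it is not divisible by a prime of `k` above a prime number `p`
such that `Good p`. -/
def InClass [NumberField k] (a b : 𝓞 k) : Prop :=
  b * (4 * a ^ 3 + 27 * b) ≠ 0 ∧ ∀ p : ℕ, p.Prime → Good p →
    ∀ v : HeightOneSpectrum (𝓞 k), (p : 𝓞 k) ∈ v.asIdeal → b * (4 * a ^ 3 + 27 * b) ∉ v.asIdeal

/-- The absolute Galois group of `k`, with the Krull topology. -/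
abbrev Gal (k : Type) [Field k] : Type := AlgebraicClosure k ≃ₐ[k] AlgebraicClosure k

/-- The group of the points of the curve `W` over the algebraic closure of `k`. -/
abbrev Pts (W : WeierstrassCurve k) : Type :=
  (W.baseChange (AlgebraicClosure k)).toAffine.Point

/-- The action of the Galois group on the points. -/
noncomputable def act (W : WeierstrassCurve k) (σ : Gal k) : Pts W →+ Pts W :=
  Affine.Point.map (W' := W.toAffine) (S := k) (F := AlgebraicClosure k)
    (K := AlgebraicClosure k) σ.toAlgHom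

end field

/-! ### The Tate modules -/

/-- The sequences `e 0` and `e 1` are elements of the `3`-adic Tate module of the abelian group `A`,
and they are a basis of it. -/
structure IsBasis {A : Type} [AddCommGroup A] (e : Fin 2 → ℕ → A) : Prop where
  zero : ∀ i, e i 0 = 0
  triple : ∀ i n, (3 : ℤ) • e i (n + 1) = e i n
  span : ∀ (n : ℕ) (P : A), (3 ^ n : ℤ) • P = 0 → ∃ k : Fin 2 → ℤ, P = ∑ i, k i • e i n
  indep : ∀ (n : ℕ) (k : Fin 2 → ℤ), ∑ i, k i • e i n = 0 → ∀ i, (3 ^ n : ℤ) ∣ k i

/-- `M` is the matrix of the endomorphism `f` of the abelian group `A` on the basis `e` of the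
`3`-adic Tate module. -/
def ActsBy {A : Type} [AddCommGroup A] (f : A →+ A) (e : Fin 2 → ℕ → A)
    (M : Matrix (Fin 2) (Fin 2) ℤ_[3]) : Prop :=
  ∀ (n : ℕ) (k : Fin 2 → Fin 2 → ℤ), (∀ i j, (3 : ℤ_[3]) ^ n ∣ M i j - k i j) →
    ∀ j, f (e j n) = ∑ i, k i j • e i n

/-! ### The classes -/

section classes

variable {k : Type} [Field k]

/-- The decomposition group of the place of `k` given by the embedding `ι`: the elements which extend
to automorphisms of `ℚ̄_p`. -/
def Dec {p : ℕ} [Fact p.Prime] (ι : AlgebraicClosure k →+* PadicAlgCl p) : Set (Gal k) :=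
  {σ | ∃ τ : PadicAlgCl p ≃ₐ[ℚ_[p]] PadicAlgCl p, ∀ x, τ (ι x) = ι (σ x)}

/-- The inertia group of the place of `k` given by the embedding `ι`: the elements which extend to
automorphisms of `ℚ̄_p` which are trivial on the residue field. -/
def Inr {p : ℕ} [Fact p.Prime] (ι : AlgebraicClosure k →+* PadicAlgCl p) : Set (Gal k) :=
  {σ | ∃ τ : PadicAlgCl p ≃ₐ[ℚ_[p]] PadicAlgCl p, (∀ x, τ (ι x) = ι (σ x)) ∧
    ∀ z : PadicAlgCl p, ‖z‖ ≤ 1 → ‖τ z - z‖ < 1}

/-- The `3`-adic cyclotomic character. -/
noncomputable def cyc (k : Type) [Field k] : Gal k →* ℤ_[3]ˣ :=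
  (cyclotomicCharacter (AlgebraicClosure k) 3).comp
    (MulSemiringAction.toRingAut (Gal k) (AlgebraicClosure k))

/-- The action of the group `G` on `V_1 ⊗ ... ⊗ V_n ⊗ χ⁻ⁱ`, where `ρ k` is the action on the basis
`e 0`, `e 1` of `V_k`. The coordinate `α` is the coefficient of `e (α 1) ⊗ ... ⊗ e (α n)`. -/
noncomputable def tens {G : Type} [Group G] {n : ℕ} (ρ : Fin n → G →* Matrix (Fin 2) (Fin 2) ℤ_[3])
    (χ : G →* ℤ_[3]ˣ) (i : ℕ) (σ : G) (v : (Fin n → Fin 2) → ℚ_[3]) : (Fin n → Fin 2) → ℚ_[3] :=
  fun α => ∑ β, ((((χ σ)⁻¹ ^ i : ℤ_[3]ˣ) * ∏ k, ρ k σ (α k) (β k) : ℤ_[3]) : ℚ_[3]) * v β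

/-- `c` is a continuous cocycle of `G` with values in `ℚ_3 ^ B`, where `σ` acts by `A σ`. -/
structure IsCocycle {G B : Type} [Group G] [TopologicalSpace G]
    (A : G → (B → ℚ_[3]) → B → ℚ_[3]) (c : G → B → ℚ_[3]) : Prop where
  cont : Continuous c
  mul : ∀ σ τ, c (σ * τ) = c σ + A σ (c τ)

/-- The restriction of the cocycle `c` to the subset `H` of `G` is the coboundary of a vector `y`. -/
def TrivialOn {G B : Type} (A : G → (B → ℚ_[3]) → B → ℚ_[3]) (H : Set G)
    (c : G → B → ℚ_[3]) : Prop :=
  ∃ y : B → ℚ_[3], ∀ σ ∈ H, c σ = A σ y - y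

/-- The class of `c` is trivial on the decomposition groups above `3` and on the inertia groups
above the primes `p` such that `Good p`. -/
structure IsSelmer {B : Type} (A : Gal k → (B → ℚ_[3]) → B → ℚ_[3]) (c : Gal k → B → ℚ_[3]) :
    Prop where
  three : ∀ ι : AlgebraicClosure k →+* PadicAlgCl 3, TrivialOn A (Dec ι) c
  good : ∀ (p : ℕ) [Fact p.Prime], Good p → ∀ ι : AlgebraicClosure k →+* PadicAlgCl p,
    TrivialOn A (Inr ι) c

end classes

/-- For all odd `n`, all curves `E_1, ..., E_n` of the class and all `i ≥ 0`, these classes are zero for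
`V_3(E_1) ⊗ ... ⊗ V_3(E_n) (-i)`. -/
def Vanishing (k : Type) [Field k] [NumberField k] : Prop :=
  ∀ (n : ℕ) (a b : Fin n → 𝓞 k), Odd n → (∀ m, InClass (a m) (b m)) →
    (∀ m, (curve (a m : k) (b m : k)).IsElliptic) ∧
    ∃ (e : ∀ m : Fin n, Fin 2 → ℕ → Pts (curve (a m : k) (b m : k)))
      (ρ : Fin n → Gal k →* Matrix (Fin 2) (Fin 2) ℤ_[3]),
      (∀ m, IsBasis (e m) ∧ ∀ σ, ActsBy (act (curve (a m : k) (b m : k)) σ) (e m) (ρ m σ)) ∧
      ∀ (i : ℕ) (c : Gal k → (Fin n → Fin 2) → ℚ_[3]), IsCocycle (tens ρ (cyc k) i) c →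
        IsSelmer (tens ρ (cyc k) i) c → TrivialOn (tens ρ (cyc k) i) Set.univ c

/-! ### The proof -/

lemma elliptic {k : Type} [Field k] [NumberField k] {a b : 𝓞 k}
    (h : b * (4 * a ^ 3 + 27 * b) ≠ 0) : (curve (a : k) (b : k)).IsElliptic := by
  have h1 : ((b * (4 * a ^ 3 + 27 * b) : 𝓞 k) : k) ≠ 0 := by
    rw [Ne, RingOfIntegers.coe_eq_zero_iff]
    exact h
  push_cast at h1
  rw [WeierstrassCurve.isElliptic_iff, isUnit_iff_ne_zero]
  have e : (curve (a : k) (b : k)).Δ = -16 * (b : k) ^ 2 * ((b : k) * (4 * (a : k) ^ 3 + 27 * b)) := by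
    simp only [curve, WeierstrassCurve.Δ, WeierstrassCurve.b₂, WeierstrassCurve.b₄,
      WeierstrassCurve.b₆, WeierstrassCurve.b₈]
    ring
  rw [e]
  exact mul_ne_zero (mul_ne_zero (by norm_num) (pow_ne_zero _ (left_ne_zero_of_mul h1))) h1

theorem result :
    (∀ (K F k : Type) [Field K] [NumberField K] [IsCyclotomicExtension {3} ℚ K] [Field F]
      [NumberField F] [Algebra K F] [Field k] [NumberField k] [Algebra k F],
      Allowed K F → Vanishing k) ∧
    (∀ (k : IntermediateField ℚ ℂ) [NumberField k], k ≤ Omega → Vanishing k) ∧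
    (∀ (k : Type) [Field k] [NumberField k] (a b : ℤ), b * (4 * a ^ 3 + 27 * b) ≠ 0 →
      (∀ p : ℕ, p.Prime → (p : ℤ) ∣ b * (4 * a ^ 3 + 27 * b) → ¬ Good p) →
      InClass (a : 𝓞 k) (b : 𝓞 k)) := by
  have main : ∀ (k : Type) [Field k] [NumberField k], Pool.Agent.W2helper2.RG.Van k →
      Vanishing k := by
    intro k _ _ h n a b hodd hcl
    refine ⟨fun m => elliptic (hcl m).1, ?_⟩
    obtain ⟨e, ρ, h1, h2⟩ := h n a b hodd fun m => ⟨(hcl m).1, fun p hp h2 h3 h7 =>
      (hcl m).2 p hp ⟨h2, h3, h7⟩⟩
    refine ⟨e, ρ, fun m => ⟨⟨(h1 m).1.zero, (h1 m).1.trp, (h1 m).1.span, (h1 m).1.indep⟩,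
      (h1 m).2⟩, ?_⟩
    intro i c hc hs
    obtain ⟨y, hy⟩ := h2 i c hc.cont hc.mul hs.three
      (fun p _ h2 h3 h7 ι => hs.good p ⟨h2, h3, h7⟩ ι)
    exact ⟨y, fun σ _ => hy σ⟩
  refine ⟨?_, ?_, ?_⟩
  · intro K F k _ _ _ _ _ _ _ _ _ hA
    obtain ⟨h1, ⟨n, hn⟩, hR⟩ := hA
    exact main k (Pool.Agent.W2helper2.RG.van (K := K) (F := F) hn hR)
  · intro k _ hk
    exact main k (Pool.Agent.W2helper2.RG.van_om k hk)
  · intro k _ _ a b h0 h
    refine ⟨by exact_mod_cast h0, fun p hp hg v hv hmem => ?_⟩
    have h1 : ((b * (4 * a ^ 3 + 27 * b) : ℤ) : 𝓞 k) ∈ v.asIdeal := by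
      push_cast
      exact hmem
    have h2 : IsCoprime (p : ℤ) (b * (4 * a ^ 3 + 27 * b)) :=
      (Nat.prime_iff_prime_int.1 hp).irreducible.coprime_iff_not_dvd.2 fun hd => h p hp hd hg
    obtain ⟨x, y, hxy⟩ := h2
    apply v.isPrime.ne_top
    rw [Ideal.eq_top_iff_one]
    have h3 := congrArg (Int.cast : ℤ → 𝓞 k) hxy
    rw [Int.cast_one, Int.cast_add, Int.cast_mul, Int.cast_mul y, Int.cast_natCast] at h3
    rw [← h3]
    exact add_mem (Ideal.mul_mem_left _ _ hv) (Ideal.mul_mem_left _ _ h1)

end Pool.Agent.Results.MP_76188c_nt.ProductsThreePowerFields
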