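import Pool.Agent.W2helper41.R.Fin3

/-!
# The `2`-adic regulator of the twists of `X_0(14)` over the number fields in an infinite extension

`E` is the modular curve `X_0(14)`, `y² + x y + y = x³ + 4 x - 6`, a curve without complex
multiplication.  A prime is inert if it is `5` modulo `8` and not a square modulo `7`, and admissible if it
is `1` modulo `4` and moreover inert or `2`, `4`, `5`, `7` modulo `9`.  Let `Ω` be the subfield of `ℂ`
generated by the square roots of all the admissible primes and by the numbers `ζ + ζ⁻¹`, `ζ` a root of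
unity of order a power of three (the cyclotomic `ℤ₃`-extension of `ℚ`).  Its number fields are abelian over
`ℚ`, of unbounded degree, and in general not multiquadratic.

We study the regulator of the problem for `X = W` an elliptic curve over `k`, `i = 2`, `j = 1`, `ℓ = 2`; it is the
map from `W(k) ⊗ ℚ_2` to `H¹_f(k, V_2 W)`, the group of the classes of continuous cocycles with values in
`V_2 W = T_2 W ⊗ ℚ_2` that are in the image of the local Kummer map at all places.  At the places `v` not
above `2` one has `H¹(k_v, V_2 W) = 0`, and at the places above `2` the image of the Kummer map consists of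
the semistable classes (Bloch–Kato, Hyodo); so this is the group `H¹_st(G_k, V_2 W)` of the problem.
These identifications are not part of the Lean theorem.

**Theorem.**  For every number field `F` in `Ω` the following are equivalent: the 2-adic regulator is an
isomorphism for the quadratic twists `E_D` over `ℚ`, for all the products `D` of admissible primes with
`√D ∈ F`; it is an isomorphism for `E` over `F`; it is an isomorphism for ALL the curves over the subfields
`k` of `F` that are isomorphic to `E` over `F`.  There is no condition on the ranks.  (The part of the Selmer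
group that belongs to the characters of order greater than two of `Gal(F/ℚ)` vanishes.)

**Example.**  For all the number fields `F` in the field generated by `√5`, `√29` and the `ζ + ζ⁻¹`, the
regulator of `E` over `F` is an isomorphism, without any hypothesis; both sides are not zero if `√29` or
`√145` is in `F`.

The proof: let `F` be a number field in `Ω`, `K` the intersection of `F` and the `ℤ₃`-extension. Then `F` is
generated over `K` by the square roots of some products `D` of admissible primes (Kummer theory).  The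
2-isogeny descents of `E_D` over `K` and over `ℚ` agree, as `2`, `7` and the admissible primes that are not
inert have one place in `K`, and the places of odd degree above the inert primes impose no condition.  The
sum of the conjugates of the corestrictions of an element `x` of `Ш(E/F)` to the twists over `K` is a
multiple of `x` by a power of two.  So the exponent of the 2-primary part of `Ш(E/F)` is bounded, and every
integral class of `H¹_f` is the limit of Kummer classes.

New for this result are the files `W2helper41.R`; they use the starting files on `H¹_f` (helper667), on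
the Tate-Shafarevich group (helper841, helper715) and on the descent (helper682 and the seats of the
projects XD, XF, XT), and the descent along a normal extension of helper55.
-/

set_option autoImplicit false

open NumberField WeierstrassCurve Finset

namespace Pool.Agent.Results.MP_76188c_nt.RegulatorsOverOmega

open Pool.Agent.TH841.SH.D (Pt act Gal)
open Pool.Agent.TH841.NF.D (Sha)
open Pool.Agent.Y667.BKP (H1f selCocV)
open scoped Classical

section general

variable {k : Type} [Field k] [NumberField k]

/-- The action of the Galois group on the points over the algebraic closure. -/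
noncomputable def conj (W : WeierstrassCurve k) (σ : Gal k) (P : Pt W (AlgebraicClosure k)) :
    Pt W (AlgebraicClosure k) := act W σ.toAlgHom P

/-- The point `P` of `W` over the algebraic closure is fixed by the Galois group: it is a point of
`W(k)`. -/
def Rational (W : WeierstrassCurve k) (P : Pt W (AlgebraicClosure k)) : Prop :=
  ∀ σ : Gal k, conj W σ P = P

/-- The class of a cocycle. -/
noncomputable def cls (W : WeierstrassCurve k) (c : selCocV 2 W) : H1f 2 W := QuotientAddGroup.mk c

/-- `x` is the class of a cocycle with values in `T_2 W`. These classes form a lattice `L` in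
`H¹_f(k, V_2 W)`. (An element of `V_2 W` is a sequence of points `x₀, x₁, …` of order a power of `2` with
`2 xₙ₊₁ = xₙ`; it is in `T_2 W` if `x₀ = 0`.) -/
def Integral (W : WeierstrassCurve k) (x : H1f 2 W) : Prop :=
  ∃ c : selCocV 2 W, cls W c = x ∧ ∀ σ : Gal k, c.1 σ 0 = 0

/-- `2 Qₙ₊₁ = Qₙ`. -/
def IsDivision (W : WeierstrassCurve k) (Q : ℕ → Pt W (AlgebraicClosure k)) : Prop :=
  ∀ n, 2 • Q (n + 1) = Q n

/-- `c` is the cocycle `σ ↦ (σ Qₙ - Qₙ)ₙ`. -/
def IsKummer (W : WeierstrassCurve k) (c : selCocV 2 W) (Q : ℕ → Pt W (AlgebraicClosure k)) :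
    Prop :=
  ∀ (σ : Gal k) (n : ℕ), c.1 σ n = conj W σ (Q n) - Q n

/-- `x` is the Kummer class of `P`: the class of `σ ↦ (σ Qₙ - Qₙ)ₙ`, where `Q₀ = P` and
`2 Qₙ₊₁ = Qₙ`. -/
def KummerClass (W : WeierstrassCurve k) (P : Pt W (AlgebraicClosure k)) (x : H1f 2 W) : Prop :=
  ∃ (c : selCocV 2 W) (Q : ℕ → Pt W (AlgebraicClosure k)), cls W c = x ∧
    Q 0 = P ∧ IsDivision W Q ∧ IsKummer W c Q

/-- The Kummer map `W(k) ⊗ ℤ_2 → L` is onto, and `L ⊗ ℚ_2 = H¹_f(k, V_2 W)`: every rational point has a
Kummer class, a multiple `2 ^ m x` of each class `x` is integral, and every integral class is congruent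
modulo `2 ^ n L` to the Kummer class of a rational point, for all `n`. -/
def KummerOnto (W : WeierstrassCurve k) : Prop :=
  (∀ P, Rational W P → ∃ x, KummerClass W P x) ∧
  (∀ x : H1f 2 W, ∃ m : ℕ, Integral W (2 ^ m • x)) ∧
  ∀ (x : H1f 2 W) (n : ℕ), Integral W x → ∃ (P : Pt W (AlgebraicClosure k)) (z y : H1f 2 W),
    Rational W P ∧ KummerClass W P z ∧ Integral W y ∧ x = z + 2 ^ n • y

/-- `P = 2 ^ n R + T` with rational points `R` and `T`, and `T` of order a power of `2`. -/
def DivisibleModTorsion (W : WeierstrassCurve k) (P : Pt W (AlgebraicClosure k)) (n : ℕ) : Prop :=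
  ∃ R T : Pt W (AlgebraicClosure k), Rational W R ∧ Rational W T ∧
    P = 2 ^ n • R + T ∧ ∃ m : ℕ, 2 ^ m • T = 0

/-- The Kummer map is injective modulo torsion: if the Kummer class of the rational point `P` is in
`2 ^ n L`, then `P` is in `2 ^ n W(k) + W(k)[2^∞]`. -/
def KummerInjective (W : WeierstrassCurve k) : Prop :=
  ∀ (P : Pt W (AlgebraicClosure k)) (z y : H1f 2 W) (n : ℕ), Rational W P → KummerClass W P z →
    Integral W y → z = 2 ^ n • y → DivisibleModTorsion W P n

/-- The 2-primary part of the Tate-Shafarevich group of `W` has bounded exponent. -/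
def BoundedSha (W : WeierstrassCurve k) : Prop :=
  ∃ m : ℕ, ∀ (n : ℕ) (x : Sha W), 2 ^ n • x = 0 → 2 ^ m • x = 0

/-- `W(k)` is finitely generated, the 2-primary part of `Ш(W/k)` has bounded exponent, and the
regulator `W(k) ⊗ ℚ_2 → H¹_f(k, V_2 W)` is an isomorphism. -/
structure RegulatorIso (W : WeierstrassCurve k) : Prop where
  finite : Module.Finite ℤ W.toAffine.Point
  sha : BoundedSha W
  onto : KummerOnto W
  injective : KummerInjective W

end general

/-- The elliptic curve `E = X_0(14)`, `y² + x y + y = x³ + 4 x - 6`. -/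
def curve (F : Type) [Field F] : WeierstrassCurve F := ⟨1, 0, 1, 4, -6⟩

/-- The quadratic twist `E_D`, `y² = x³ + 13 D x² + 128 D² x`, over the rational numbers. -/
def twist (D : ℕ) : WeierstrassCurve ℚ := ⟨0, 13 * D, 0, 128 * D ^ 2, 0⟩

/-- The inert primes. -/
def Inert (q : ℕ) : Prop := q.Prime ∧ q % 8 = 5 ∧ (q % 7 = 3 ∨ q % 7 = 5 ∨ q % 7 = 6)

/-- The admissible primes. -/
def Admissible (p : ℕ) : Prop :=
  p.Prime ∧ p % 4 = 1 ∧ (Inert p ∨ p % 9 = 2 ∨ p % 9 = 4 ∨ p % 9 = 5 ∨ p % 9 = 7)

/-- The field `Ω`, the subfield of `ℂ` generated by the square roots of all the admissible primes and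
by the numbers `ζ + ζ⁻¹`, `ζ` a root of unity of order a power of three (the latter generate the
cyclotomic `ℤ₃`-extension of `ℚ`). -/
noncomputable def Omega : IntermediateField ℚ ℂ :=
  IntermediateField.adjoin ℚ ({z : ℂ | ∃ q : ℕ, Admissible q ∧ z ^ 2 = (q : ℂ)} ∪
    {z : ℂ | ∃ (n : ℕ) (ζ : ℂ), ζ ^ 3 ^ n = 1 ∧ z = ζ + ζ⁻¹})

/-- The subfield of `ℂ` generated by the square roots of `5` and `29` and by the numbers `ζ + ζ⁻¹`, `ζ` a
root of unity of order a power of three. -/
noncomputable def OmegaFiveTwentyNine : IntermediateField ℚ ℂ :=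
  IntermediateField.adjoin ℚ ({z : ℂ | z ^ 2 = 5 ∨ z ^ 2 = 29} ∪
    {z : ℂ | ∃ (n : ℕ) (ζ : ℂ), ζ ^ 3 ^ n = 1 ∧ z = ζ + ζ⁻¹})

/-- The curve `W` over the subfield `k` of `ℂ` is isomorphic to `E` by a change of variables
`(x, y) ↦ (u² x + r, u³ y + u² s x + t)` with `u`, `r`, `s`, `t` in `U`. -/
def IsoOver (U : IntermediateField ℚ ℂ) {k : IntermediateField ℚ ℂ} (W : WeierstrassCurve k) :
    Prop :=
  ∃ C : VariableChange ℂ, (C.u : ℂ) ∈ U ∧ C.r ∈ U ∧ C.s ∈ U ∧ C.t ∈ U ∧
    C • (W.baseChange ℂ) = curve ℂ

lemma twist_eq (D : ℕ) : twist D = Pool.Agent.Y682.gc (13 * (D : ℤ)) (128 * (D : ℤ) ^ 2) ℚ := by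
  unfold twist Pool.Agent.Y682.gc
  push_cast
  rfl

lemma iso_of {k : Type} [Field k] [NumberField k] {W : WeierstrassCurve k}
    (h : Pool.Agent.W2helper41.R.Reg W) : RegulatorIso W :=
  ⟨h.1, h.2.1, ⟨h.2.2.1, h.2.2.2.1, h.2.2.2.2.1⟩, h.2.2.2.2.2⟩

/-- the curve over `F` is a curve over `F` -/
lemma iso_self (F : IntermediateField ℚ ℂ) [NumberField F] :
    Pool.Agent.W2helper41.R.Isom F (curve F) := by
  refine ⟨1, one_mem F, zero_mem F, zero_mem F, zero_mem F, ?_⟩
  rw [one_smul]
  have e0 : algebraMap F ℂ 0 = 0 := map_zero _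
  have e1 : algebraMap F ℂ 1 = 1 := map_one _
  have e4 : algebraMap F ℂ 4 = 4 := map_ofNat _ 4
  have e6 : algebraMap F ℂ (-6) = -6 := by
    rw [map_neg]
    exact congrArg Neg.neg (map_ofNat (algebraMap F ℂ) 6)
  show (⟨algebraMap F ℂ 1, algebraMap F ℂ 0, algebraMap F ℂ 1, algebraMap F ℂ 4,
    algebraMap F ℂ (-6)⟩ : WeierstrassCurve ℂ) = ⟨1, 0, 1, 4, -6⟩
  rw [e0, e1, e4, e6]

/-- the regulator over `F` -/
lemma iso_F (F : IntermediateField ℚ ℂ) [NumberField F] (hF : Pool.Agent.W2helper41.R.Abl F)
    (hB : ∃ m, Pool.Agent.W2helper41.R.BndS 2 m (Pool.Agent.Y682.gc 13 128 F)) :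
    RegulatorIso (curve F) :=
  iso_of (Pool.Agent.W2helper41.R.reg_omega F hF hB F le_rfl (curve F) (iso_self F))

/-- **Main theorem.**  Let `F` be a number field contained in `Ω`.  The 2-adic regulator of `E` over `F` is
an isomorphism if and only if this is true for the twists `E_D` over `ℚ`, for all the products `D` of admissible
primes with `√D ∈ F`, and if and only if this is true for all the curves `W` over subfields `k` of `F` that are
isomorphic to `E` over `F`.  Example: this is the case for all the number fields `F` in the field generated by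
`√5`, `√29` and the `ζ + ζ⁻¹`, and `E(F)` is infinite if `√29` or `√145` is in `F`. -/
theorem result :
    (∀ (F : IntermediateField ℚ ℂ) [NumberField F], F ≤ Omega →
      (RegulatorIso (curve F) ↔ ∀ A : Finset ℕ, (∀ q ∈ A, Admissible q) →
        (∃ z ∈ F, z ^ 2 = ((∏ q ∈ A, q : ℕ) : ℂ)) → RegulatorIso (twist (∏ q ∈ A, q))) ∧
      (RegulatorIso (curve F) ↔ ∀ (k : IntermediateField ℚ ℂ) [NumberField k], k ≤ F →
        ∀ W : WeierstrassCurve k, IsoOver F W → RegulatorIso W)) ∧
    (∀ (F : IntermediateField ℚ ℂ) [NumberField F], F ≤ OmegaFiveTwentyNine →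
      RegulatorIso (curve F) ∧
      ((∃ z ∈ F, z ^ 2 = 29 ∨ z ^ 2 = 145) → Infinite (curve F).toAffine.Point)) := by
  refine ⟨fun F _ hF => ⟨?_, ?_⟩, ?_⟩
  · have h1 := Pool.Agent.W2helper41.R.main_two F hF
    have hB : RegulatorIso (curve F) ↔ BoundedSha (curve F) :=
      ⟨fun h => h.sha, fun h => iso_F F (Pool.Agent.W2helper41.R.abl_omega F hF)
        (Pool.Agent.W2helper41.R.bnd_cu.2 h)⟩
    have hD : ∀ A : Finset ℕ, (∀ q ∈ A, Admissible q) →
        (RegulatorIso (twist (∏ q ∈ A, q)) ↔ ∃ m, Pool.Agent.W2helper41.R.BndS 2 m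
          (Pool.Agent.Y682.gc (13 * ((∏ q ∈ A, q : ℕ) : ℤ)) (128 * ((∏ q ∈ A, q : ℕ) : ℤ) ^ 2) ℚ)) := by
      intro A hA
      rw [twist_eq]
      refine ⟨fun h => h.sha, fun h => iso_of (Pool.Agent.W2helper41.R.reg_twist ?_ h)⟩
      have : ∏ q ∈ A, q ≠ 0 := prod_ne_zero_iff.2 fun q hq => (hA q hq).1.ne_zero
      exact_mod_cast this
    rw [hB]
    refine h1.trans ⟨fun h A hA hz => (hD A hA).2 (h A hA hz), fun h A hA hz => (hD A hA).1 (h A hA hz)⟩
  · constructor
    · intro hI k _ hk W hW
      exact iso_of (Pool.Agent.W2helper41.R.reg_omega F (Pool.Agent.W2helper41.R.abl_omega F hF)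
        (Pool.Agent.W2helper41.R.bnd_cu.2 hI.sha) k hk W hW)
    · intro h
      exact h F le_rfl (curve F) (iso_self F)
  · intro F _ hF
    obtain ⟨h1, h2⟩ := Pool.Agent.W2helper41.R.ex_bnd F hF
    exact ⟨iso_F F h1 h2, fun hz => Pool.Agent.W2helper41.R.ex_inf F hz⟩

end Pool.Agent.Results.MP_76188c_nt.RegulatorsOverOmega
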