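import Pool.Agent.W2helper41.N.Num
import Pool.Agent.W2helper41.R.Fin3

/-!
# The vanishing of `H¹_f` for all the twists of `X_0(14)` over the number fields in infinite extensions
# attached to at least half of the products of inert primes and of one or two split primes

`E` is the modular curve `X_0(14)`, `y² + x y + y = x³ + 4 x - 6`, a curve without complex
multiplication.  A prime is inert if it is `5` modulo `8` and not a square modulo `7`, and split if it is `1`
modulo `8` and a square modulo `7`.  For a product `D` of distinct inert and split primes let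

  `Ω_D = ℚ(√D; √q : q inert and a square modulo the split prime factors of D; ζ + ζ⁻¹)`

(`ζ` all the roots of unity of order a power of three).  `D` is good if for EVERY number field `k` in `Ω_D` and
EVERY elliptic curve `W` over `k` that is isomorphic to `E` over `Ω_D`, both sides of the 2-adic regulator
`W(k) ⊗ ℚ_2 → H¹_f(k, V_2 W)` are zero, and the 2-primary part of `Ш(W/k)` has bounded exponent.

* `D = m ∏ P`, `m` a product of distinct inert primes, `P` a set of at most two split primes that are `2`,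
  `4`, `5` or `7` modulo `9`, is good if the matrix of residue symbols of `m` and `P` is nonsingular; for
  `P = ∅` there is no condition.
* At least half of the `D` with one (two) split prime factors from a set `S` and any number of inert prime
  factors from `S` are good, ordered by size.  `S` can be the set of all the inert primes and of the split
  primes that are `2`, `4`, `5` or `7` modulo `9`; then the number of these `D` up to `X` has the order of
  magnitude `X (log X)^(-7/8) (log log X)^k`, `k` the number of the split prime factors.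

`H¹_f(k, V_2 W)` (starting files) is the group of the classes of continuous cocycles with values in
`V_2 W = T_2 W ⊗ ℚ_2` that are in the image of the local Kummer map at all places; it is the group
`H¹_st(G_k, V_2 W)` of the problem (Bloch–Kato, Hyodo; not part of the Lean theorem).
-/

set_option autoImplicit false

open NumberField WeierstrassCurve Finset Filter Topology

namespace Pool.Agent.Results.MP_76188c_nt.SelmerVanishingForHalf

open Pool.Agent.TH841.NF.D (Sha)
open Pool.Agent.Y667.BKP (H1f)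
open scoped Classical

section general

variable {k : Type} [Field k] [NumberField k]

/-- The 2-primary part of the Tate-Shafarevich group of `W` has bounded exponent. -/
def BoundedSha (W : WeierstrassCurve k) : Prop :=
  ∃ m : ℕ, ∀ (n : ℕ) (x : Sha W), 2 ^ n • x = 0 → 2 ^ m • x = 0

/-- Both sides of the regulator are zero, and the 2-primary part of `Ш(W/k)` has bounded exponent. -/
structure BothZero (W : WeierstrassCurve k) : Prop where
  finite : Finite W.toAffine.Point
  sha : BoundedSha W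
  selmer : ∀ x : H1f 2 W, x = 0

end general

/-- The elliptic curve `E = X_0(14)`, `y² + x y + y = x³ + 4 x - 6`. -/
def curve (F : Type) [Field F] : WeierstrassCurve F := ⟨1, 0, 1, 4, -6⟩

/-- The inert primes. -/
def Inert (q : ℕ) : Prop := q.Prime ∧ q % 8 = 5 ∧ (q % 7 = 3 ∨ q % 7 = 5 ∨ q % 7 = 6)

/-- The split primes. -/
def Split (p : ℕ) : Prop := p.Prime ∧ p % 8 = 1 ∧ (p % 7 = 1 ∨ p % 7 = 2 ∨ p % 7 = 4)

/-- The field `Ω_D`, the subfield of `ℂ` generated by the square roots of `D`, by the square roots of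
all the inert primes that are squares modulo all the split prime factors of `D`, and by the numbers
`ζ + ζ⁻¹`, `ζ` a root of unity of order a power of three. -/
noncomputable def Omega (D : ℕ) : IntermediateField ℚ ℂ :=
  IntermediateField.adjoin ℚ ({z : ℂ | z ^ 2 = (D : ℂ)} ∪
    ({z : ℂ | ∃ q : ℕ, Inert q ∧ (∀ p : ℕ, Split p → p ∣ D → IsSquare ((q : ℕ) : ZMod p)) ∧
      z ^ 2 = (q : ℂ)} ∪
    {z : ℂ | ∃ (n : ℕ) (ζ : ℂ), ζ ^ 3 ^ n = 1 ∧ z = ζ + ζ⁻¹}))

/-- The curve `W` over the subfield `k` of `ℂ` is isomorphic to `E` by a change of variables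
`(x, y) ↦ (u² x + r, u³ y + u² s x + t)` with `u`, `r`, `s`, `t` in `U`. -/
def IsoOver (U : IntermediateField ℚ ℂ) {k : IntermediateField ℚ ℂ} (W : WeierstrassCurve k) :
    Prop :=
  ∃ C : VariableChange ℂ, (C.u : ℂ) ∈ U ∧ C.r ∈ U ∧ C.s ∈ U ∧ C.t ∈ U ∧
    C • (W.baseChange ℂ) = curve ℂ

/-- For EVERY number field `k` in `Ω_D` and EVERY curve `W` over `k` that is isomorphic to `E` over `Ω_D`,
both sides of the regulator are zero. -/
def Good (D : ℕ) : Prop :=
  ∀ (k : IntermediateField ℚ ℂ) [NumberField k], k ≤ Omega D → ∀ W : WeierstrassCurve k,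
    IsoOver (Omega D) W → BothZero W

/-- The residue symbol, written additively: `0` for the squares and `1` for the other elements. -/
noncomputable def ns {F : Type} [Mul F] (x : F) : ZMod 2 := if IsSquare x then 0 else 1

/-- The local symbol of `m` at the split prime `p`: `0` if `y⁴ + 13 m y² + 128 m²` has a root modulo
`p`, and `1` otherwise. -/
noncomputable def nr (m p : ℕ) : ZMod 2 :=
  if ∃ y : ZMod p, y ^ 4 + 13 * m * y ^ 2 + 128 * m ^ 2 = 0 then 0 else 1

/-- The matrix of `m` and `P`: the entry at `(j, i)` is the residue symbol of `i` modulo `j` if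
`i ≠ j`, and the diagonal entry at `j` is the local symbol of `m` at `j` plus the sum of the residue
symbols modulo `j` of the other primes of `P`. -/
noncomputable def matrix (P : Finset ℕ) (m : ℕ) : Matrix P P (ZMod 2) := Matrix.of fun j i =>
  if i = j then nr m j + ∑ l ∈ P.erase j, ns ((l : ℕ) : ZMod (j : ℕ)) else ns ((i : ℕ) : ZMod (j : ℕ))

/-- `D` is squarefree, all its prime factors are in `S` and split or inert, and exactly `k` of them are
split. -/
def Family (S : Set ℕ) (k D : ℕ) : Prop :=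
  Squarefree D ∧ (∀ p : ℕ, p.Prime → p ∣ D → p ∈ S ∧ (Split p ∨ Inert p)) ∧
    (D.primeFactors.filter fun p => p % 8 = 1).card = k

/-- at least a positive proportion of the primes up to `Y` is in `S` and of the kind `Q`, for all large
`Y` -/
def Dense (S : Set ℕ) (Q : ℕ → Prop) : Prop := ∃ (δ : ℝ) (Y₀ : ℕ), 0 < δ ∧ ∀ Y : ℕ, Y₀ ≤ Y →
  δ * (Y / Real.log Y) ≤ (Nat.card {p : ℕ // p ≤ Y ∧ p ∈ S ∧ Q p} : ℝ)

/-- `S` has positive lower densities among the split and among the inert primes, and the sum of the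
inverses of the inert primes of `S` up to `y` is `δ log log y` up to a bounded error. -/
def Regular (S : Set ℕ) (δ : ℝ) : Prop :=
  0 < δ ∧ δ ≤ 1 ∧ Dense S Split ∧ Dense S Inert ∧ ∃ C : ℝ, ∀ y : ℕ, 3 ≤ y →
    |∑ p ∈ (range (y + 1)).filter (fun p => p ∈ S ∧ Inert p), (1 : ℝ) / p -
      δ * Real.log (Real.log y)| ≤ C

/-- the number of the `D` with `1 ≤ D ≤ X` and `Q D` -/
noncomputable def count (Q : ℕ → Prop) (X : ℕ) : ℕ := Nat.card {D : ℕ // 1 ≤ D ∧ D ≤ X ∧ Q D}

open Pool.Agent.W2helper41.N (FamN Rg IA SA cf)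

lemma count_eq (Q : ℕ → Prop) [DecidablePred Q] (X : ℕ) : count Q X = ((Icc 1 X).filter Q).card := by
  unfold count
  rw [← Fintype.card_coe, ← Nat.card_eq_fintype_card]
  refine Nat.card_congr (Equiv.subtypeEquivRight fun p => ?_)
  rw [Finset.mem_filter, Finset.mem_Icc, and_assoc]

lemma card_le (S : Set ℕ) (Q : ℕ → Prop) {R : ℕ → Prop} (h : ∀ p, (p ∈ S ∧ Q p) ↔ R p) (Y : ℕ) :
    Nat.card {p : ℕ // p ≤ Y ∧ p ∈ S ∧ Q p} = ((range (Y + 1)).filter R).card := by
  rw [← Fintype.card_coe, ← Nat.card_eq_fintype_card]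
  refine Nat.card_congr (Equiv.subtypeEquivRight fun p => ?_)
  rw [Finset.mem_filter, Finset.mem_range, Nat.lt_succ_iff, h]

open Pool.Agent.V11291.FK (Dn) in
lemma dense_iff (S : Set ℕ) (Q : ℕ → Prop) {R : ℕ → Prop} (h : ∀ p, (p ∈ S ∧ Q p) ↔ R p) :
    Dense S Q ↔ Dn R := by
  unfold Dense Dn
  refine exists_congr fun δ => exists_congr fun Y₀ => and_congr_right fun _ =>
    forall_congr' fun Y => imp_congr_right fun _ => ?_
  rw [card_le S Q h Y]

lemma reg_iff (S : Set ℕ) (δ : ℝ) : Regular S δ ↔ Rg (fun p => p ∈ S) δ := by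
  have h1 : Dense S Split ↔ Pool.Agent.V11291.FK.Dn (SA fun p => p ∈ S) :=
    dense_iff S Split fun p => Iff.rfl
  have h2 : Dense S Inert ↔ Pool.Agent.V11291.FK.Dn (IA fun p => p ∈ S) :=
    dense_iff S Inert fun p => Iff.rfl
  have h3 : ∀ y : ℕ, ∑ p ∈ (range (y + 1)).filter (fun p => p ∈ S ∧ Inert p), (1 : ℝ) / p =
      ∑ p ∈ (range (y + 1)).filter (fun p => p.Prime ∧ IA (fun p => p ∈ S) p), (1 : ℝ) / p := by
    intro y
    refine Finset.sum_congr ?_ fun _ _ => rfl
    refine Finset.filter_congr fun p _ => ?_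
    exact ⟨fun h => ⟨h.2.1, h⟩, fun h => h.2⟩
  constructor
  · rintro ⟨a1, a2, a3, a4, C, a5⟩
    exact ⟨a1, a2, h1.1 a3, h2.1 a4, C, fun y hy => by rw [← h3]; exact a5 y hy⟩
  · rintro ⟨a1, a2, a3, a4, C, a5⟩
    exact ⟨a1, a2, h1.2 a3, h2.2 a4, C, fun y hy => by rw [h3]; exact a5 y hy⟩

lemma fam_iff (S : Set ℕ) (k D : ℕ) : Family S k D ↔ FamN (fun p => p ∈ S) k D := by
  unfold Family FamN
  constructor
  · rintro ⟨h1, h2, h3⟩
    exact ⟨h1, fun p hp => h2 p (Nat.prime_of_mem_primeFactors hp)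
      (Nat.dvd_of_mem_primeFactors hp), h3⟩
  · rintro ⟨h1, h2, h3⟩
    exact ⟨h1, fun p hp hd => h2 p (Nat.mem_primeFactors.2 ⟨hp, hd, h1.ne_zero⟩), h3⟩

/-- the families and the sets of primes -/
lemma fam_prod {S : Set ℕ} {k D : ℕ} (hD : Family S k D) :
    (∀ q ∈ Pool.Agent.W2helper41.Z.ins D, Inert q) ∧
    (∀ p ∈ Pool.Agent.W2helper41.Z.sps D, Split p) ∧
    D = (∏ q ∈ Pool.Agent.W2helper41.Z.ins D, q) * ∏ p ∈ Pool.Agent.W2helper41.Z.sps D, p ∧
    (Pool.Agent.W2helper41.Z.sps D).card = k := by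
  have hk' := hD.2.2
  rw [fam_iff, Pool.Agent.W2helper41.N.famN_iff] at hD
  exact ⟨Pool.Agent.W2helper41.Z.ins_ine hD, Pool.Agent.W2helper41.Z.sps_spl hD,
    Pool.Agent.W2helper41.Z.prod_eq hD, hk'⟩

/-- a set with the split primes of one and the inert primes of another regular set -/
lemma regular_mix {S S₁ S₂ : Set ℕ} {δ₁ δ : ℝ} (h1 : Regular S₁ δ₁) (h2 : Regular S₂ δ)
    (e1 : ∀ p, Split p → (p ∈ S ↔ p ∈ S₁)) (e2 : ∀ p, Inert p → (p ∈ S ↔ p ∈ S₂)) :
    Regular S δ := by
  have eS : ∀ p : ℕ, (p ∈ S ∧ Split p) ↔ (p ∈ S₁ ∧ Split p) := fun p =>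
    and_congr_left fun hp => e1 p hp
  have eI : ∀ p : ℕ, (p ∈ S ∧ Inert p) ↔ (p ∈ S₂ ∧ Inert p) := fun p =>
    and_congr_left fun hp => e2 p hp
  obtain ⟨-, -, a3, -, -⟩ := h1
  obtain ⟨b1, b2, -, b4, C, b5⟩ := h2
  refine ⟨b1, b2, ?_, ?_, C, fun y hy => ?_⟩
  · rw [dense_iff _ _ (R := fun p => p ∈ S₁ ∧ Split p) eS]
    exact (dense_iff _ _ (R := fun p => p ∈ S₁ ∧ Split p) fun p => Iff.rfl).1 a3
  · rw [dense_iff _ _ (R := fun p => p ∈ S₂ ∧ Inert p) eI]
    exact (dense_iff _ _ (R := fun p => p ∈ S₂ ∧ Inert p) fun p => Iff.rfl).1 b4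
  · have h3 : (range (y + 1)).filter (fun p => p ∈ S ∧ Inert p) =
        (range (y + 1)).filter (fun p => p ∈ S₂ ∧ Inert p) :=
      Finset.filter_congr fun p _ => eI p
    rw [h3]
    exact b5 y hy


lemma zero_of {k : Type} [Field k] [NumberField k] {W : WeierstrassCurve k}
    (h : Pool.Agent.W2helper41.R.Zer W) : BothZero W :=
  ⟨h.1, h.2.1, h.2.2⟩

lemma good_of {T P : Finset ℕ} (hT : ∀ q ∈ T, Inert q) (hP : ∀ p ∈ P, Split p) (hc : P.card ≤ 2)
    (h9 : ∀ p ∈ P, p % 9 = 2 ∨ p % 9 = 4 ∨ p % 9 = 5 ∨ p % 9 = 7)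
    (hdet : (Pool.Agent.W2helper41.X.mat P (∏ q ∈ T, q)).det ≠ 0) :
    Good ((∏ q ∈ T, q) * ∏ p ∈ P, p) := by
  intro k _ hk W hW
  have hdiv : ∀ p ∈ P, p ∣ (∏ q ∈ T, q) * ∏ p ∈ P, p := fun p hp =>
    Dvd.dvd.mul_left (dvd_prod_of_mem _ hp) _
  have hle : Omega ((∏ q ∈ T, q) * ∏ p ∈ P, p) ≤
      Pool.Agent.W2helper41.M.Om ((∏ q ∈ T, q) * ∏ p ∈ P, p) P := by
    refine IntermediateField.adjoin.mono ℚ _ _ ?_
    refine Set.union_subset_union_right _ (Set.union_subset_union_left _ ?_)
    rintro z ⟨q, hq, hsq, hz⟩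
    exact ⟨q, hq, fun p hp => hsq p (hP p hp) (hdiv p hp), hz⟩
  obtain ⟨C, h1, h2, h3, h4, h5⟩ := hW
  exact zero_of (Pool.Agent.W2helper41.R.main_one hT hP hc hdet h9 k (hk.trans hle) W
    ⟨C, hle h1, hle h2, hle h3, hle h4, h5⟩)

/-- **Main theorem.**

(1) Let `T` be a finite set of inert primes and `P` a set of at most two split primes that are `2`, `4`,
`5` or `7` modulo `9`, such that the matrix of `m = ∏ T` and `P` is nonsingular (this is so for `P = ∅`).
Then `m ∏ P` is good.

(2) Every product of distinct inert primes is good.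

(3) Let `S` be a regular set of primes with the density `δ` of the inert primes, whose split primes are
`2`, `4`, `5` or `7` modulo `9`, and let `k = 1` or `k = 2`.  The number of the elements up to `X` of the
family of `S, k` is between two positive constants times `X (log X)^(δ - 1) (log log X)^k`, and at least
half of them are good: for every `ε > 0`, the proportion of the good ones is at least `1/2 - ε` for all
large `X`.

(4) The set of all the inert primes and of the split primes that are `2`, `4`, `5` or `7` modulo `9` is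
regular with the density `1/8`. -/
theorem result :
    (∀ T P : Finset ℕ, (∀ q ∈ T, Inert q) → (∀ p ∈ P, Split p) → P.card ≤ 2 →
      (∀ p ∈ P, p % 9 = 2 ∨ p % 9 = 4 ∨ p % 9 = 5 ∨ p % 9 = 7) →
      (matrix P (∏ q ∈ T, q)).det ≠ 0 → Good ((∏ q ∈ T, q) * ∏ p ∈ P, p)) ∧
    (∀ T : Finset ℕ, (∀ q ∈ T, Inert q) → Good (∏ q ∈ T, q)) ∧
    (∀ (S : Set ℕ) (δ : ℝ), Regular S δ →
      (∀ p ∈ S, Split p → p % 9 = 2 ∨ p % 9 = 4 ∨ p % 9 = 5 ∨ p % 9 = 7) →
      ∀ k : ℕ, k = 1 ∨ k = 2 →
      (∃ (c C : ℝ) (X₀ : ℕ), 0 < c ∧ 0 < C ∧ ∀ X : ℕ, X₀ ≤ X →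
        c * (X * Real.log X ^ (δ - 1) * Real.log (Real.log X) ^ k) ≤
          (count (Family S k) X : ℝ) ∧
        (count (Family S k) X : ℝ) ≤
          C * (X * Real.log X ^ (δ - 1) * Real.log (Real.log X) ^ k)) ∧
      ∀ ε : ℝ, 0 < ε → ∀ᶠ X : ℕ in atTop,
        (1 / 2 - ε) * (count (Family S k) X : ℝ) ≤
          (count (fun D => Family S k D ∧ Good D) X : ℝ)) ∧
    Regular {p | Inert p ∨ p % 9 = 2 ∨ p % 9 = 4 ∨ p % 9 = 5 ∨ p % 9 = 7} (1 / 8) := by
  refine ⟨?_, ?_, ?_, ?_⟩
  · intro T P hT hP hc h9 hdet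
    exact good_of hT hP hc h9 hdet
  · intro T hT
    have h := good_of (T := T) (P := ∅) hT (by simp) (by simp) (by simp) (by
      rw [Matrix.det_isEmpty]
      exact one_ne_zero)
    rwa [prod_empty, mul_one] at h
  · intro S δ hS h9 k hk12
    have hk : 0 < k := by omega
    have hk2 : k ≤ 2 := by omega
    rw [reg_iff] at hS
    have e1 : ∀ X : ℕ, count (Family S k) X =
        ((Icc 1 X).filter fun D => FamN (fun p => p ∈ S) k D).card := by
      intro X
      rw [count_eq]
      exact cf fun D _ => fam_iff S k D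
    have key : ∀ D : ℕ, Family S k D → (Pool.Agent.W2helper41.X.mat
        (Pool.Agent.W2helper41.Z.sps D) (∏ q ∈ Pool.Agent.W2helper41.Z.ins D, q)).det ≠ 0 →
        Good D := by
      intro D hD hdet
      obtain ⟨hT, hP, e, hc⟩ := fam_prod hD
      have h3 := good_of hT hP (by rw [hc]; exact hk2) (fun p hp => by
        have hpD : p ∣ D := by
          rw [e]
          exact Dvd.dvd.mul_left (dvd_prod_of_mem _ hp) _
        exact h9 p (hD.2.1 p (hP p hp).1 hpD).1 (hP p hp)) hdet
      rw [← e] at h3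
      exact h3
    have hlaw := Pool.Agent.W2helper41.N.lawN hS hk
    have hlim : ∏ i ∈ range ((k + 1) / 2), (1 - (1 / 2 : ℝ) ^ (2 * i + 1)) = 1 / 2 := by
      have h2 : (k + 1) / 2 = 1 := by omega
      rw [h2, Finset.prod_range_one]
      norm_num
    rw [hlim] at hlaw
    refine ⟨?_, fun ε hε => ?_⟩
    · obtain ⟨c, C, X₀, hc, hC, h⟩ := Pool.Agent.W2helper41.N.sizeN hS k
      refine ⟨c, C, X₀, hc, hC, fun X hX => ?_⟩
      rw [e1]
      exact h X hX
    · have h1 := hlaw.eventually (lt_mem_nhds (show (1 / 2 : ℝ) - ε < 1 / 2 by linarith))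
      filter_upwards [h1] with X hX
      have h2 : (((Icc 1 X).filter fun D => FamN (fun p => p ∈ S) k D ∧
          (Pool.Agent.W2helper41.X.mat (Pool.Agent.W2helper41.Z.sps D)
            (∏ q ∈ Pool.Agent.W2helper41.Z.ins D, q)).det ≠ 0).card : ℝ) ≤
          (count (fun D => Family S k D ∧ Good D) X : ℝ) := by
        rw [count_eq]
        refine Nat.cast_le.2 (card_le_card fun D hD => ?_)
        rw [mem_filter] at hD ⊢
        obtain ⟨a1, a2, a3⟩ := hD
        have a4 : Family S k D := (fam_iff S k D).2 a2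
        exact ⟨a1, a4, key D a4 a3⟩
      refine le_trans ?_ h2
      rw [e1]
      rcases Nat.eq_zero_or_pos ((Icc 1 X).filter fun D => FamN (fun p => p ∈ S) k D).card with
        h0 | h0
      · rw [h0, Nat.cast_zero, mul_zero]
        exact Nat.cast_nonneg _
      · have h3 : (0 : ℝ) < (((Icc 1 X).filter fun D => FamN (fun p => p ∈ S) k D).card : ℝ) := by
          exact_mod_cast h0
        exact ((lt_div_iff₀ h3).1 hX).le
  · have h1 : Regular {p | p % 9 ∈ ({2, 4, 5, 7} : Finset ℕ)}
        (({2, 4, 5, 7} : Finset ℕ).card / (8 * (9 : ℕ).totient)) := by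
      rw [reg_iff]
      exact Pool.Agent.W2helper41.N.rg_class (N := 9) (R := {2, 4, 5, 7}) (by norm_num)
        ⟨2, by decide⟩ (by decide)
    have h2 : Regular {p | p % 1 ∈ ({0} : Finset ℕ)} (({0} : Finset ℕ).card /
        (8 * Nat.totient 1)) := by
      rw [reg_iff]
      exact Pool.Agent.W2helper41.N.rg_class (Nat.coprime_one_left 14) (singleton_nonempty 0)
        (by
          intro a ha
          rw [mem_singleton] at ha
          rw [ha]
          exact ⟨one_pos, Nat.coprime_one_right 0⟩)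
    have e8 : ((({0} : Finset ℕ).card : ℝ) / (8 * (Nat.totient 1 : ℝ))) = 1 / 8 := by
      rw [card_singleton, Nat.totient_one]
      norm_num
    rw [e8] at h2
    refine regular_mix h1 h2 (fun p hp => ⟨fun h => ?_, fun h => Or.inr ?_⟩)
      (fun p hp => ⟨fun _ => ?_, fun _ => Or.inl hp⟩)
    · rcases h with h | h
      · have h3 := h.2.1
        have h4 := hp.2.1
        omega
      · show p % 9 ∈ ({2, 4, 5, 7} : Finset ℕ)
        simp only [mem_insert, mem_singleton]
        exact h
    · have h3 : p % 9 ∈ ({2, 4, 5, 7} : Finset ℕ) := h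
      simp only [mem_insert, mem_singleton] at h3
      exact h3
    · show p % 1 ∈ ({0} : Finset ℕ)
      rw [Nat.mod_one]
      exact mem_singleton_self 0

end Pool.Agent.Results.MP_76188c_nt.SelmerVanishingForHalf
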