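import Mathlib
import Pool.Agent.W2helper2.RG.Main

/-!
# The `3`-adic regulator of the twists of `y² = x³ - 1` over the fields of an infinite extension

`K` is the field of third roots of unity and `E : y² = x³ - 1`. A Galois extension `F / K` of degree
`3 ^ n` is allowed if it is ramified only at primes that do not divide `3` and in whose residue
fields (of `K`) `-1` is not a square. The Galois group of `F / K` may be any `3`-group, in
particular it may be nonabelian.

Theorem: if `F / K` is allowed, `k` is a number field such that `F / k` is normal and `W` is an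
elliptic curve over `k` which is isomorphic to `E` over `F`, then

* `W(k)` is finite of order prime to `3`,
* the `3`-primary part of the Tate-Shafarevich group of `W` over `k` is zero,
* `H¹_f(k, V_3 W) = 0`.

So for `X = W`, `i = 2`, `j = 1`, `ℓ = 3` the two sides `W(k) ⊗ ℚ_3` and `H¹_st(G_k, V_3 W)` of the
regulator are zero. Here `H¹_f(k, V_3 W)` is the group of the classes of continuous cocycles with
values in `V_3 W = T_3 W ⊗ ℚ_3` that are in the image of the local Kummer map at all places. At the
places `v` not above `3` one has `H¹(k_v, V_3 W) = 0` (the reduction is potentially good), and at the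
places above `3` the image of the Kummer map consists of the semistable classes (Bloch–Kato, Hyodo);
so this is the group `H¹_st(G_k, V_3 W)` of the problem. These identifications are not part of the
Lean theorem.

The field `Omega` is the infinite extension of `ℚ` generated by `√-3`, the cube roots of the cube-free
`D = ± 1` modulo `9` composed of primes `7` modulo `12`, and the numbers of degree `3 ^ n` in the
cyclotomic fields of the `m` composed of primes `7` modulo `12`. The conclusions hold for all the
number fields `k` contained in `Omega` (real or not, normal or not) and all the curves over `k` that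
are isomorphic to `E` over `Omega`; for example for `y² = x³ - D²`.

The proof: a Selmer class of the isogeny `√-3` gives an element `z` of `L = F(i)` whose valuations are
divisible by `3` and which is a cube up to `3` at the primes above `3`, and `z σ(z)` is a cube for the
generator `σ` of `Gal(L/F)`. The group `Gal(L/K(i))` is a `3`-group and acts on the group of these
`z` modulo cubes; a fixed vector comes from `K(i) = ℚ(ζ_12)`, where the condition on the
ramification shows that the valuations are divisible by `3` again, and there are none. So the Selmer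
groups of `√-3` are trivial over `F`, and the restriction to `F` is injective on the `3`-primary parts.

Built on project TQ of helper24 (pieces by helper2, helper8, helper10, helper14, helper15, helper17,
helper19, helper22, helper24, helper53, helper54, helper55, helper60, helper66, helper68, helper73,
helper84, helper89, helper92, helper93, helper95 and helper99) and on the starting files on `H¹_f`
(helper667) and the Tate-Shafarevich group (helper841).
-/

set_option autoImplicit false

namespace Pool.Agent.Results.MP_76188c_nt.ThreePowerExtensions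

open NumberField IsDedekindDomain WeierstrassCurve
open Pool.Agent.TH841.NF.D (Sha)
open Pool.Agent.Y667.BKP (H1f)
open scoped Classical

/-- The curve `E : y² = x³ - 1`. -/
def curve (R : Type) [CommRing R] : WeierstrassCurve R := ⟨0, 0, 0, 0, -1⟩

/-- The curve `y² = x³ - D²`. -/
def twist (D : ℕ) (R : Type) [CommRing R] : WeierstrassCurve R := ⟨0, 0, 0, 0, -(D : R) ^ 2⟩

/-- `F / K` is Galois, its degree is a power of `3`, and it is ramified only at primes that do not
divide `3` and in whose residue fields (of `K`) `-1` is not a square. -/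
def Allowed (K F : Type) [Field K] [NumberField K] [Field F] [NumberField F] [Algebra K F] :
    Prop :=
  IsGalois K F ∧ (∃ n : ℕ, Module.finrank K F = 3 ^ n) ∧
    ∀ w : HeightOneSpectrum (𝓞 F), ¬ Algebra.IsUnramifiedAt (𝓞 K) w.asIdeal →
      (3 : 𝓞 F) ∉ w.asIdeal ∧ ∀ x : 𝓞 K, algebraMap (𝓞 K) (𝓞 F) (x ^ 2 + 1) ∉ w.asIdeal

/-- The curve `W` over `k` is isomorphic to `E` over the extension `F` of `k`. -/
def IsoOver {k : Type} [Field k] (F : Type) [Field F] [Algebra k F] (W : WeierstrassCurve k) :
    Prop :=
  ∃ C : VariableChange F, C • (W.baseChange F) = curve F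

/-- Both sides of the `3`-adic regulator of `W` are zero, and so are the `3`-primary parts of the
group of the points and of the Tate-Shafarevich group. -/
structure BothZero {k : Type} [Field k] [NumberField k] (W : WeierstrassCurve k) : Prop where
  /-- `W(k)` is finite, so `W(k) ⊗ ℚ_3 = 0`. -/
  finite : Finite W.toAffine.Point
  /-- The order of `W(k)` is prime to `3`. -/
  order : ¬ 3 ∣ Nat.card W.toAffine.Point
  /-- The Tate-Shafarevich group has no element whose order is a power of `3` except zero. -/
  sha : ∀ (n : ℕ) (x : Sha W), 3 ^ n • x = 0 → x = 0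
  /-- `H¹_f(k, V_3 W) = 0`. -/
  selmer : ∀ x : H1f 3 W, x = 0

/-- `m > 0` is composed of primes `7` modulo `12`. -/
def Conductor (m : ℕ) : Prop := 0 < m ∧ ∀ q : ℕ, q.Prime → q ∣ m → q % 12 = 7

/-- `D > 0` is cube-free, composed of primes `7` modulo `12`, and `± 1` modulo `9`. -/
def InClass (D : ℕ) : Prop :=
  0 < D ∧ (∀ p : ℕ, p.Prime → p ∣ D → p % 12 = 7 ∧ ¬ p ^ 3 ∣ D) ∧ (D % 9 = 1 ∨ D % 9 = 8)

/-- The infinite extension of `ℚ` generated by the square roots of `-3`, the cube roots of the `D` of
the class, and the numbers of degree `3 ^ n` in the cyclotomic fields of the `m` composed of primes `7`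
modulo `12`. -/
noncomputable def Omega : IntermediateField ℚ ℂ := IntermediateField.adjoin ℚ
  ({z : ℂ | z ^ 2 = -3} ∪ ({z : ℂ | ∃ D : ℕ, InClass D ∧ z ^ 3 = D} ∪
    {z : ℂ | (∃ n : ℕ, (minpoly ℚ z).natDegree = 3 ^ n) ∧
      ∃ m : ℕ, Conductor m ∧ z ∈ IntermediateField.adjoin ℚ {ζ : ℂ | ζ ^ m = 1}}))

/-- The curve `W` over the subfield `k` of `ℂ` is isomorphic to `E` by a change of variables
`(x, y) ↦ (u² x + r, u³ y + u² s x + t)` with `u`, `r`, `s`, `t` in `Omega`. -/
def IsoOverOmega {k : IntermediateField ℚ ℂ} (W : WeierstrassCurve k) : Prop :=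
  ∃ C : VariableChange ℂ, (C.u : ℂ) ∈ Omega ∧ C.r ∈ Omega ∧ C.s ∈ Omega ∧ C.t ∈ Omega ∧
    C • (W.baseChange ℂ) = curve ℂ

lemma bothZero_of {k : Type} [Field k] [NumberField k] {W : WeierstrassCurve k}
    (h : Pool.Agent.W2helper2.RG.Zero W) : BothZero W :=
  ⟨h.1, h.2.1, h.2.2.1, h.2.2.2⟩

theorem result :
    (∀ (K F k : Type) [Field K] [NumberField K] [IsCyclotomicExtension {3} ℚ K] [Field F]
      [NumberField F] [Algebra K F] [Field k] [NumberField k] [Algebra k F] [Normal k F],
      Allowed K F → ∀ W : WeierstrassCurve k, IsoOver F W → BothZero W) ∧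
    (∀ (k : IntermediateField ℚ ℂ) [NumberField k], k ≤ Omega →
      ∀ W : WeierstrassCurve k, IsoOverOmega W → BothZero W) ∧
    (∀ (k : IntermediateField ℚ ℂ) [NumberField k], k ≤ Omega →
      ∀ D : ℕ, InClass D → BothZero (twist D k)) := by
  have h2 : ∀ (k : IntermediateField ℚ ℂ) [NumberField k], k ≤ Omega →
      ∀ W : WeierstrassCurve k, IsoOverOmega W → BothZero W := by
    intro k _ hk W ⟨C, hu, hr, hs, ht, hC⟩
    exact bothZero_of (Pool.Agent.W2helper2.RG.main_om k hk W C hu hr hs ht hC)
  refine ⟨?_, h2, fun k _ hk D hD => h2 k hk _ ?_⟩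
  · intro K F k _ _ _ _ _ _ _ _ _ _ hA W ⟨C, hC⟩
    obtain ⟨h1, ⟨n, hn⟩, hR⟩ := hA
    have h3 := Pool.Agent.W2helper2.RG.vr_of_change (W.baseChange F) C
    rw [hC] at h3
    exact bothZero_of (Pool.Agent.W2helper2.RG.main (K := K) hn hR h3)
  · obtain ⟨z, hz⟩ : ∃ z : ℂ, z ^ 3 = D := IsAlgClosed.exists_pow_nat_eq _ (by norm_num)
    have hD0 : (D : ℂ) ≠ 0 := by exact_mod_cast hD.1.ne'
    have hz0 : z ≠ 0 := by
      rintro rfl
      exact hD0 (by rw [← hz]; norm_num)
    refine ⟨⟨Units.mk0 z hz0, 0, 0, 0⟩, ?_, zero_mem _, zero_mem _, zero_mem _, ?_⟩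
    · exact IntermediateField.subset_adjoin _ _ (Or.inr (Or.inl ⟨D, hD, hz⟩))
    · have h3 : (z : ℂ)⁻¹ ^ 6 * (-(D : ℂ) ^ 2) = -1 := by
        rw [← hz]
        field_simp
      ext
      · simp [curve, twist, variableChange_a₁]
      · simp [curve, twist, variableChange_a₂]
      · simp [curve, twist, variableChange_a₃]
      · simp [curve, twist, variableChange_a₄]
      · rw [variableChange_a₆]
        simpa [curve, twist] using h3

end Pool.Agent.Results.MP_76188c_nt.ThreePowerExtensions
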